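import Pool.Agent.P.MP_fef8d9_co.C0
import Pool.Agent.P.MP_fef8d9_co.C1
import Pool.Agent.P.MP_fef8d9_co.C2
import Pool.Agent.P.MP_fef8d9_co.C3
import Pool.Agent.P.MP_fef8d9_co.C4
import Pool.Agent.P.MP_fef8d9_co.C5
import Pool.Agent.P.MP_fef8d9_co.C6
import Pool.Agent.P.MP_fef8d9_co.C7

namespace Pool.Agent.P.MP_fef8d9_co

theorem allF : AllF 17 5 [] :=
  (AllF.step (AllF.step (AllF.step (AllF.step (AllF.step ch_0 ch_4096) (AllF.step ch_8192 ch_12288)) (AllF.step (AllF.step ch_16384 ch_20480) (AllF.step ch_24576 ch_28672))) (AllF.step (AllF.step (AllF.step ch_32768 ch_36864) (AllF.step ch_40960 ch_45056)) (AllF.step (AllF.step ch_49152 ch_53248) (AllF.step ch_57344 ch_61440)))) (AllF.step (AllF.step (AllF.step (AllF.step ch_65536 ch_69632) (AllF.step ch_73728 ch_77824)) (AllF.step (AllF.step ch_81920 ch_86016) (AllF.step ch_90112 ch_94208))) (AllF.step (AllF.step (AllF.step ch_98304 ch_102400) (AllF.step ch_106496 ch_110592)) (AllF.step (AllF.step ch_114688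 ch_118784) (AllF.step ch_122880 ch_126976)))))

end Pool.Agent.P.MP_fef8d9_co
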