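import Mathlib

namespace Pool.Agent.P.MP_fef8d9_co

/-- Closed neighbourhoods, as bit masks, of a graph on 17 vertices. -/
def cn (v : ℕ) : ℕ := Nat.land (Nat.shiftRight 621655987150184824336389591670411830147400871950170862205684141628885540218793588686945 (17 * v)) 131071

def sub (a b : ℕ) : Bool := Nat.beq (Nat.land a b) a

def bit (v : ℕ) : ℕ := Nat.shiftLeft 1 v

def nbL : List ℕ → ℕ
  | [] => 0
  | x :: l => Nat.lor (cn x) (nbL l)

def maskL : List ℕ → ℕ
  | [] => 0
  | x :: l => Nat.lor (bit x) (maskL l)

def pnOf (S : List ℕ) (x : ℕ) : ℕ :=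
  Nat.land (cn x) (Nat.xor 131071 (nbL (S.filter fun y => !(Nat.beq y x))))

def noAnn (c I O : ℕ) : List ℕ → Bool
  | [] => true
  | p :: l => cond (sub (Nat.land p I) c) (cond (sub (Nat.land p c) O) (noAnn c I O l) false)
      (noAnn c I O l)

def bad (NS : ℕ) (PN : List ℕ) (I O : ℕ) : ℕ → ℕ → Bool
  | 0, _ => false
  | f + 1, t => cond (Nat.beq t 0) false
      (cond (cond (sub (Nat.land (cn (Nat.log2 t)) I) NS) false (noAnn (cn (Nat.log2 t)) I O PN))
        true (bad NS PN I O f (Nat.xor t (bit (Nat.log2 t)))))

def firstEmpty (I : ℕ) : List ℕ → Option ℕ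
  | [] => none
  | p :: l => cond (Nat.beq (Nat.land p I) 0) (some p) (firstEmpty I l)

def nbK : ℕ → ℕ → Option ℕ
  | 0, D => cond (Nat.beq D 0) (some 0) none
  | k + 1, D => cond (Nat.beq D 0) (some 0)
      (match nbK k (Nat.xor D (bit (Nat.log2 D))) with
        | none => none
        | some m => some (Nat.lor (cn (Nat.log2 D)) m))

/-- The next branching set together with the rest of the certificate. -/
def nextBr (k : ℕ) (PN : List ℕ) (I O c : ℕ) : Option (ℕ × ℕ) :=
  match firstEmpty I PN with
  | some p => some (Nat.land p (Nat.xor 131071 O), c)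
  | none => cond (sub (Nat.land c 131071) I)
      (match nbK k (Nat.land c 131071) with
        | none => none
        | some m => some (Nat.xor 131071 (Nat.lor m O), Nat.shiftRight c 17))
      none

def go (k SM NS : ℕ) (PN : List ℕ) : ℕ → ℕ → ℕ → ℕ → ℕ → Option ℕ
  | 0, _, _, _, _ => none
  | f + 1, I, O, t, c => cond (Nat.beq t 0) (some c)
      (match cond (bad NS PN (Nat.lor I (bit (Nat.log2 t))) O 17
            (Nat.xor (Nat.lor I (bit (Nat.log2 t))) SM)) (some c)
          (match nextBr k PN (Nat.lor I (bit (Nat.log2 t))) O c with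
            | none => none
            | some r => go k SM NS PN f (Nat.lor I (bit (Nat.log2 t))) O r.1 r.2) with
        | none => none
        | some c' => go k SM NS PN f I (Nat.lor O (bit (Nat.log2 t)))
            (Nat.xor t (bit (Nat.log2 t))) c')

def chkS (S : List ℕ) (c : ℕ) : Option ℕ :=
  match firstEmpty 131071 (S.map (pnOf S)) with
  | some _ => some c
  | none => go S.length (maskL S) (nbL S) (S.map (pnOf S)) 400 (maskL S) 0
      (Nat.xor 131071 (nbL S)) c

/-- Run `chkS` on `T ++ S` for all sets `T` of at most `k` vertices below `v`. -/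
def enum : ℕ → ℕ → List ℕ → ℕ → Option ℕ
  | 0, _, S, c => chkS S c
  | v + 1, k, S, c =>
      match enum v k S c with
      | none => none
      | some c' =>
        match k with
        | 0 => some c'
        | k + 1 => enum v k (v :: S) c'

def noDom : ℕ → ℕ → ℕ → ℕ → Bool
  | 0, _, _, _ => false
  | f + 1, k, cov, t => cond (Nat.beq t 0) true
      (cond (cond (Nat.beq (Nat.lor cov (cn (Nat.log2 t))) 131071) false
          (match k with
            | 0 => true
            | k + 1 => noDom f k (Nat.lor cov (cn (Nat.log2 t)))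
                (cn (Nat.log2 (Nat.xor 131071 (Nat.lor cov (cn (Nat.log2 t))))))))
        (noDom f k cov (Nat.xor t (bit (Nat.log2 t)))) false)

end Pool.Agent.P.MP_fef8d9_co
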