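import Pool.Agent.P.MP_fef8d9_co.Sound

namespace Pool.Agent.P.MP_fef8d9_co

def Fine (S : List ℕ) : Prop :=
  ∀ W : ℕ → Prop, (∀ v, W v → v < 17) → (∀ v ∈ S, W v) → Irr W S →
    (∀ v, W v → v ∉ S → ¬ Irr W (v :: S)) → Goal W S.length

def AllF (v k : ℕ) (S : List ℕ) : Prop :=
  ∀ T : Finset ℕ, (∀ x ∈ T, x < v) → T.card ≤ k →
    ∃ L : List ℕ, (∀ x, x ∈ L ↔ x ∈ T ∨ x ∈ S) ∧ L.length = T.card + S.length ∧ Fine L

theorem AllF.step {v k : ℕ} {S : List ℕ} (h1 : AllF v (k + 1) S) (h2 : AllF v k (v :: S)) :
    AllF (v + 1) (k + 1) S := by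
  intro T hT hk
  by_cases hv : v ∈ T
  · obtain ⟨L, hL, hl, hF⟩ := h2 (T.erase v) (fun x hx => by
      have := hT x (Finset.mem_of_mem_erase hx)
      have := Finset.ne_of_mem_erase hx
      omega) (by rw [Finset.card_erase_of_mem hv]; omega)
    refine ⟨L, fun x => ?_, ?_, hF⟩
    · rw [hL, Finset.mem_erase, List.mem_cons]
      by_cases hx : x = v
      · subst hx; simp [hv]
      · simp [hx]
    · have := Finset.card_pos.2 ⟨v, hv⟩
      rw [hl, Finset.card_erase_of_mem hv, List.length_cons]; omega
  · exact h1 T (fun x hx => by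
      have := hT x hx
      have : x ≠ v := fun e => hv (e ▸ hx)
      omega) hk

theorem enum_spec : ∀ {v k : ℕ} {S : List ℕ} {q : ℕ}, (enum v k S q).isSome = true →
    AllF v k S := by
  intro v
  induction v with
  | zero =>
    intro k S q h T hT _
    have : T = ∅ := Finset.eq_empty_of_forall_notMem fun x hx => by
      have := hT x hx; omega
    subst this
    exact ⟨S, by simp, by simp, fun W hW hSW hI hM => chkS_spec hW hSW hI hM h⟩
  | succ v ih =>
    intro k S q h
    unfold enum at h
    cases h1 : enum v k S q with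
    | none => rw [h1] at h; simp at h
    | some q' =>
      rw [h1] at h
      have h1' : AllF v k S := ih (q := q) (by rw [h1]; rfl)
      cases k with
      | zero =>
        intro T _ hk
        have : T = ∅ := Finset.card_eq_zero.1 (by omega)
        subst this
        exact h1' ∅ (by simp) (by simp)
      | succ k => exact h1'.step (ih h)

theorem noDom_spec (hsymm : ∀ u v, u < 17 → v < 17 → c u v → c v u) :
    ∀ {f k cov t : ℕ}, noDom f k cov t = true → ∀ D : Finset ℕ, D.card ≤ k + 1 →
      (∀ d ∈ D, d < 17) → (∀ i, cov.testBit i = true → i < 17) →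
      (∀ v < 17, cov.testBit v = true ∨ ∃ d ∈ D, c d v) → (∃ d ∈ D, t.testBit d = true) → False := by
  intro f
  induction f with
  | zero => intro k cov t h; simp [noDom] at h
  | succ f ih =>
    intro k cov t h D hD hlt hcl hcov ⟨d, hd, hdt⟩
    have ht : t ≠ 0 := fun e => by rw [e] at hdt; simp at hdt
    have h0 : Nat.beq t 0 = false := by
      cases hq : Nat.beq t 0
      · rfl
      · exact absurd (beq_true.1 hq) ht
    unfold noDom at h
    rw [h0, cond_false] at h
    by_cases hu : Nat.log2 t ∈ D
    · set u := Nat.log2 t with hudef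
      cases h1 : Nat.beq (Nat.lor cov (cn u)) 131071
      · rw [h1, cond_false] at h
        have hne : Nat.lor cov (cn u) ≠ 131071 := fun e => by
          rw [beq_true.2 e] at h1; simp at h1
        have hx : Nat.xor 131071 (Nat.lor cov (cn u)) ≠ 0 := fun e => hne (by
          have : (131071 : ℕ) ^^^ (Nat.lor cov (cn u)) = 0 := e
          exact (Nat.xor_eq_zero_iff.1 this).symm)
        have hz := tb_log2 hx
        set z := Nat.log2 (Nat.xor 131071 (Nat.lor cov (cn u))) with hzdef
        have hcl' : ∀ i, (Nat.lor cov (cn u)).testBit i = true → i < 17 := by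
          intro i hi
          rw [tb_lor, Bool.or_eq_true] at hi
          exact hi.elim (hcl i) c_lt
        rw [tb_xor, tb_all] at hz
        have hzf : (Nat.lor cov (cn u)).testBit z = false := by
          cases hq : (Nat.lor cov (cn u)).testBit z
          · rfl
          · rw [hq] at hz; simp [hcl' z hq] at hz
        have hz17 : z < 17 := by rw [hzf] at hz; simpa using hz
        rw [tb_lor, Bool.or_eq_false_iff] at hzf
        obtain ⟨e, he, hez⟩ : ∃ d ∈ D, c d z := by
          rcases hcov z hz17 with h3 | h3
          · rw [hzf.1] at h3; simp at h3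
          · exact h3
        have heu : e ≠ u := fun q => by
          rw [q, c, hzf.2] at hez; simp at hez
        have hcard : (D.erase u).card + 1 = D.card := Finset.card_erase_add_one hu
        have hpos : 0 < (D.erase u).card := Finset.card_pos.2 ⟨e, Finset.mem_erase.2 ⟨heu, he⟩⟩
        cases k with
        | zero => omega
        | succ k =>
          have h4 : noDom f k (Nat.lor cov (cn u)) (cn z) = true := by
            cases hq : noDom f k (Nat.lor cov (cn u)) (cn z)
            · simp only [hq] at h; simp at h
            · rfl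
          refine ih h4 (D.erase u) (by omega) (fun d hd => hlt d (Finset.mem_of_mem_erase hd))
            hcl' (fun v hv => ?_) ⟨e, Finset.mem_erase.2 ⟨heu, he⟩,
              hsymm e z (hlt e he) hz17 hez⟩
          rw [tb_lor, Bool.or_eq_true]
          rcases hcov v hv with h3 | ⟨d', hd', hc⟩
          · exact Or.inl (Or.inl h3)
          · by_cases hdu : d' = u
            · exact Or.inl (Or.inr (hdu ▸ hc))
            · exact Or.inr ⟨d', Finset.mem_erase.2 ⟨hdu, hd'⟩, hc⟩
      · rw [h1] at h; simp at h
    · have : noDom f k cov (Nat.xor t (bit (Nat.log2 t))) = true := by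
        cases hq : noDom f k cov (Nat.xor t (bit (Nat.log2 t)))
        · rw [hq] at h; simp at h
        · rfl
      exact ih this D hD hlt hcl hcov ⟨d, hd, (tb_rest ht).2 ⟨hdt, fun e => hu (e ▸ hd)⟩⟩

end Pool.Agent.P.MP_fef8d9_co
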