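import Pool.Agent.K.MP_fef8d9_co.C9

set_option autoImplicit false

namespace Pool.Agent.P.MP_fef8d9_co

/-- Irredundance of a set of vertices. -/
def ownIrr {V : Type} (H : SimpleGraph V) (X : Set V) : Prop :=
  ∀ x ∈ X, (insert x (H.neighborSet x) \ ⋃ y ∈ X \ {x}, insert y (H.neighborSet y)).Nonempty

theorem ownIrr_iff {V : Type} (H : SimpleGraph V) (X : Set V) : ownIrr H X ↔
    ∀ x ∈ X, ∃ u, (u = x ∨ H.Adj u x) ∧ ∀ y ∈ X, y ≠ x → ¬ (u = y ∨ H.Adj u y) := by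
  refine forall₂_congr fun x _ => exists_congr fun u => ?_
  simp only [Set.mem_sdiff, Set.mem_insert_iff, SimpleGraph.mem_neighborSet, Set.mem_iUnion,
    Set.mem_singleton_iff, exists_prop, not_exists, not_and, and_imp, H.adj_comm u]

theorem ownIrr_mono {V : Type} (H : SimpleGraph V) {X Y : Set V} (hXY : X ⊆ Y)
    (h : ownIrr H Y) : ownIrr H X := by
  rw [ownIrr_iff] at h ⊢
  intro x hx
  obtain ⟨u, h1, h2⟩ := h x (hXY hx)
  exact ⟨u, h1, fun y hy => h2 y (hXY hy)⟩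

theorem own_maximal_iff {V : Type} (H : SimpleGraph V) (X : Set V) :
    Maximal (ownIrr H) X ↔ ownIrr H X ∧ ∀ x, x ∉ X → ¬ ownIrr H (insert x X) := by
  constructor
  · intro h
    exact ⟨h.1, fun x hx hi => hx (h.2 hi (Set.subset_insert x X) (Set.mem_insert x X))⟩
  · rintro ⟨h1, h2⟩
    refine ⟨h1, fun Y hY hXY x hx => ?_⟩
    by_contra hn
    exact h2 x hn (ownIrr_mono H (Set.insert_subset hx hXY) hY)

section
variable {V : Type} {H : SimpleGraph V} (f : H ↪g Gr) {W : Finset (Fin 17)}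

theorem own_near (u x : V) : (f u = f x ∨ Gr.Adj (f u) (f x)) ↔ (u = x ∨ H.Adj u x) := by
  rw [f.injective.eq_iff, f.map_adj_iff]

theorem own_irr (hW : ∀ v, v ∈ W ↔ ∃ x, f x = v) {X : Set V} {S : Finset (Fin 17)}
    (hS : ∀ v, v ∈ S ↔ ∃ x ∈ X, f x = v) : irr W S ↔ ownIrr H X := by
  rw [ownIrr_iff]
  constructor
  · rintro ⟨-, h⟩ x hx
    obtain ⟨u, hu, h1, h2⟩ := h (f x) ((hS _).2 ⟨x, hx, rfl⟩)
    obtain ⟨u, rfl⟩ := (hW u).1 hu
    refine ⟨u, (own_near f u x).1 h1, fun y hy hne hc => ?_⟩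
    exact h2 (f y) ((hS _).2 ⟨y, hy, rfl⟩) (fun e => hne (f.injective e)) ((own_near f u y).2 hc)
  · intro h
    refine ⟨fun v hv => ?_, fun v hv => ?_⟩
    · obtain ⟨x, -, rfl⟩ := (hS v).1 hv
      exact (hW _).2 ⟨x, rfl⟩
    · obtain ⟨x, hx, rfl⟩ := (hS v).1 hv
      obtain ⟨u, h1, h2⟩ := h x hx
      refine ⟨f u, (hW _).2 ⟨u, rfl⟩, (own_near f u x).2 h1, fun w hw hne hc => ?_⟩
      obtain ⟨y, hy, rfl⟩ := (hS w).1 hw
      exact h2 y hy (fun e => hne (congrArg f e)) ((own_near f u y).1 hc)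

theorem own_card {X : Set V} {S : Finset (Fin 17)} (hS : ∀ v, v ∈ S ↔ ∃ x ∈ X, f x = v) :
    S.card = X.ncard := by
  rw [← Set.ncard_coe_finset, ← Set.ncard_image_of_injective X f.injective]
  congr 1
  ext v
  rw [Finset.mem_coe, hS]
  rfl

theorem own_up (X : Set V) : ∃ S : Finset (Fin 17), ∀ v, v ∈ S ↔ ∃ x ∈ X, f x = v := by
  classical
  exact ⟨Finset.univ.filter fun v => ∃ x ∈ X, f x = v, fun v => by simp⟩

theorem own_down (hW : ∀ v, v ∈ W ↔ ∃ x, f x = v) {S : Finset (Fin 17)} (hSW : S ⊆ W) :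
    ∃ X : Set V, ∀ v, v ∈ S ↔ ∃ x ∈ X, f x = v := by
  refine ⟨{x | f x ∈ S}, fun v => ⟨fun hv => ?_, ?_⟩⟩
  · obtain ⟨x, rfl⟩ := (hW v).1 (hSW hv)
    exact ⟨x, hv, rfl⟩
  · rintro ⟨x, hx, rfl⟩
    exact hx

theorem own_insert {X : Set V} {S : Finset (Fin 17)} (hS : ∀ v, v ∈ S ↔ ∃ x ∈ X, f x = v)
    (x : V) : ∀ v, v ∈ insert (f x) S ↔ ∃ y ∈ insert x X, f y = v := by
  intro v
  rw [Finset.mem_insert, hS, Set.exists_mem_insert, eq_comm]

theorem own_irSet (hW : ∀ v, v ∈ W ↔ ∃ x, f x = v) :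
    {n : ℕ | ∃ X : Set V, Maximal (ownIrr H) X ∧ X.ncard = n} = irSet W := by
  ext n
  constructor
  · rintro ⟨X, hX, rfl⟩
    obtain ⟨h1, h2⟩ := (own_maximal_iff H X).1 hX
    obtain ⟨S, hS⟩ := own_up f X
    refine ⟨S, (own_irr f hW hS).2 h1, fun v hv hvS hi => ?_, own_card f hS⟩
    obtain ⟨x, rfl⟩ := (hW v).1 hv
    exact h2 x (fun hx => hvS ((hS _).2 ⟨x, hx, rfl⟩)) ((own_irr f hW (own_insert f hS x)).1 hi)
  · rintro ⟨S, h1, h2, rfl⟩
    obtain ⟨X, hS⟩ := own_down f hW h1.1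
    refine ⟨X, (own_maximal_iff H X).2 ⟨(own_irr f hW hS).1 h1, fun x hx hi => ?_⟩,
      (own_card f hS).symm⟩
    refine h2 (f x) ((hW _).2 ⟨x, rfl⟩) (fun hv => ?_) ((own_irr f hW (own_insert f hS x)).2 hi)
    obtain ⟨y, hy, e⟩ := (hS _).1 hv
    exact hx (f.injective e ▸ hy)

theorem own_dom_iff (D : Set V) : (⋃ y ∈ D, insert y (H.neighborSet y)) = Set.univ ↔
    ∀ x, ∃ d ∈ D, x = d ∨ H.Adj x d := by
  rw [Set.eq_univ_iff_forall]
  refine forall_congr' fun x => ?_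
  simp only [Set.mem_iUnion, Set.mem_insert_iff, SimpleGraph.mem_neighborSet, exists_prop,
    H.adj_comm x]

theorem own_gamSet (hW : ∀ v, v ∈ W ↔ ∃ x, f x = v) :
    {n : ℕ | ∃ D : Set V, (⋃ y ∈ D, insert y (H.neighborSet y)) = Set.univ ∧ D.ncard = n} =
      gamSet W := by
  ext n
  constructor
  · rintro ⟨D, hD, rfl⟩
    rw [own_dom_iff] at hD
    obtain ⟨S, hS⟩ := own_up f D
    refine ⟨S, fun v hv => ?_, fun v hv => ?_, own_card f hS⟩
    · obtain ⟨x, -, rfl⟩ := (hS v).1 hv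
      exact (hW _).2 ⟨x, rfl⟩
    · obtain ⟨x, rfl⟩ := (hW v).1 hv
      obtain ⟨d, hd, rfl | h⟩ := hD x
      · exact Or.inl ((hS _).2 ⟨x, hd, rfl⟩)
      · exact Or.inr ⟨f d, (hS _).2 ⟨d, hd, rfl⟩, f.map_adj_iff.2 h⟩
  · rintro ⟨S, h1, h2, rfl⟩
    obtain ⟨D, hS⟩ := own_down f hW h1
    refine ⟨D, (own_dom_iff D).2 fun x => ?_, (own_card f hS).symm⟩
    rcases h2 (f x) ((hW _).2 ⟨x, rfl⟩) with h | ⟨d, hd, h⟩
    · obtain ⟨y, hy, e⟩ := (hS _).1 h
      exact ⟨y, hy, Or.inl (f.injective e).symm⟩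
    · obtain ⟨y, hy, rfl⟩ := (hS _).1 hd
      exact ⟨y, hy, Or.inr (f.map_adj_iff.1 h)⟩

end

theorem own_small {V : Type} (H : SimpleGraph V) (f : H ↪g Gr) (i : ℕ) (hi : i ≤ 5)
    (h : IsLeast {n : ℕ | ∃ X : Set V, Maximal (ownIrr H) X ∧ X.ncard = n} i) :
    IsLeast {n : ℕ | ∃ D : Set V,
      (⋃ y ∈ D, insert y (H.neighborSet y)) = Set.univ ∧ D.ncard = n} i := by
  obtain ⟨W, hW⟩ := own_up f Set.univ
  have hW' : ∀ v, v ∈ W ↔ ∃ x, f x = v := fun v => by simpa using hW v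
  rw [own_irSet f hW'] at h
  rw [own_gamSet f hW']
  have e := h.csInf_eq
  have := small W (by omega)
  rw [← e, this]
  exact ⟨Nat.sInf_mem (gamSet_nonempty W), fun _ hn => Nat.sInf_le hn⟩

theorem own_univ (v : Fin 17) :
    v ∈ (Finset.univ : Finset (Fin 17)) ↔
      ∃ x, (SimpleGraph.Embedding.refl : Gr ↪g Gr) x = v :=
  ⟨fun _ => ⟨v, rfl⟩, fun _ => Finset.mem_univ v⟩

theorem own_ir : IsLeast {n : ℕ | ∃ X : Set (Fin 17), Maximal (ownIrr Gr) X ∧ X.ncard = n} 6 := by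
  rw [own_irSet _ own_univ]
  have h1 := ir_univ
  have h2 := gam_univ
  have h3 : sInf (irSet Finset.univ) = 6 := by
    by_contra hne
    have := small Finset.univ (by omega)
    omega
  rw [← h3]
  exact ⟨Nat.sInf_mem ⟨_, gam_mem_irSet Finset.univ⟩, fun _ hn => Nat.sInf_le hn⟩

theorem own_adj (u v : Fin 17) : Gr.Adj u v ↔ u ≠ v ∧ (cn u).testBit v = true := Iff.rfl

theorem own_gam : IsLeast {n : ℕ | ∃ D : Set (Fin 17),
    (⋃ y ∈ D, insert y (Gr.neighborSet y)) = Set.univ ∧ D.ncard = n} 7 := by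
  rw [own_gamSet _ own_univ]
  refine ⟨⟨{0, 1, 2, 3, 4, 8, 14}, Finset.subset_univ _, ?_, by decide⟩,
    fun _ hn => gam_univ.trans (Nat.sInf_le hn)⟩
  simp only [own_adj]
  decide +kernel

set_option synthInstance.maxSize 4096 in
theorem own_edges : Gr.edgeSet = {s(0, 5), s(0, 6), s(1, 2), s(1, 7), s(1, 8), s(1, 9), s(2, 10),
    s(3, 4), s(3, 11), s(3, 12), s(4, 13), s(5, 7), s(5, 8), s(5, 11), s(5, 14), s(7, 10),
    s(8, 12), s(8, 15), s(9, 15), s(14, 16)} := by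
  ext e
  induction e using Sym2.ind with
  | _ u v =>
    simp only [SimpleGraph.mem_edgeSet, Set.mem_insert_iff, Set.mem_singleton_iff, Sym2.eq_iff,
      own_adj]
    revert u v
    decide +kernel

theorem own_connected : Gr.Connected := by
  have a : ∀ u v : Fin 17, u ≠ v ∧ (cn u).testBit v = true → Gr.Reachable u v :=
    fun u v h => ((own_adj u v).2 h).reachable
  have r5 : Gr.Reachable 0 5 := a _ _ (by decide +kernel)
  have r6 : Gr.Reachable 0 6 := a _ _ (by decide +kernel)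
  have r7 := r5.trans (a 5 7 (by decide +kernel))
  have r8 := r5.trans (a 5 8 (by decide +kernel))
  have r11 := r5.trans (a 5 11 (by decide +kernel))
  have r14 := r5.trans (a 5 14 (by decide +kernel))
  have r1 := r7.trans (a 7 1 (by decide +kernel))
  have r10 := r7.trans (a 7 10 (by decide +kernel))
  have r2 := r1.trans (a 1 2 (by decide +kernel))
  have r9 := r1.trans (a 1 9 (by decide +kernel))
  have r12 := r8.trans (a 8 12 (by decide +kernel))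
  have r15 := r8.trans (a 8 15 (by decide +kernel))
  have r3 := r11.trans (a 11 3 (by decide +kernel))
  have r4 := r3.trans (a 3 4 (by decide +kernel))
  have r13 := r4.trans (a 4 13 (by decide +kernel))
  have r16 := r14.trans (a 14 16 (by decide +kernel))
  have h : ∀ v, Gr.Reachable 0 v := by
    intro v
    fin_cases v
    exacts [SimpleGraph.Reachable.refl _, r1, r2, r3, r4, r5, r6, r7, r8, r9, r10, r11, r12, r13,
      r14, r15, r16]
  exact ⟨fun u v => (h u).symm.trans (h v)⟩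

theorem own_triangle_free : Gr.CliqueFree 3 := by
  intro t ht
  obtain ⟨a, b, d, h1, h2, h3, -⟩ := SimpleGraph.is3Clique_iff.1 ht
  have : ∀ a b : Fin 17, Gr.Adj a b → ∀ d, Gr.Adj a d → ¬ Gr.Adj b d := by
    simp only [own_adj]
    decide +kernel
  exact this a b h1 d h2 h3

end Pool.Agent.P.MP_fef8d9_co
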