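import Pool.Agent.P.MP_fef8d9_co.Check

namespace Pool.Agent.P.MP_fef8d9_co

theorem tb_land (a b i : ℕ) : (Nat.land a b).testBit i = (a.testBit i && b.testBit i) :=
  Nat.testBit_and a b i
theorem tb_lor (a b i : ℕ) : (Nat.lor a b).testBit i = (a.testBit i || b.testBit i) :=
  Nat.testBit_or a b i
theorem tb_xor (a b i : ℕ) : (Nat.xor a b).testBit i = (a.testBit i ^^ b.testBit i) :=
  Nat.testBit_xor a b i
theorem tb_all (i : ℕ) : (131071 : ℕ).testBit i = decide (i < 17) :=
  Nat.testBit_two_pow_sub_one 17 i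
theorem tb_bit (v i : ℕ) : (bit v).testBit i = decide (v = i) := by
  have : bit v = 2 ^ v := by
    show 1 <<< v = 2 ^ v
    rw [Nat.shiftLeft_eq, one_mul]
  rw [this, Nat.testBit_two_pow]

theorem beq_true {a b : ℕ} : Nat.beq a b = true ↔ a = b := Nat.beq_eq ▸ Iff.rfl

theorem tb_log2 {t : ℕ} (h : t ≠ 0) : t.testBit (Nat.log2 t) = true := Nat.testBit_log2 h

theorem sub_iff {a b : ℕ} : sub a b = true ↔ ∀ i, a.testBit i = true → b.testBit i = true := by
  unfold sub
  rw [beq_true]
  constructor
  · intro h i hi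
    have := congrArg (fun z => Nat.testBit z i) h
    simp only [tb_land, hi, Bool.true_and] at this
    exact this
  · intro h
    apply Nat.eq_of_testBit_eq
    intro i
    rw [tb_land]
    cases ha : a.testBit i
    · simp
    · simp [h i ha]

/-- `v` lies in the closed neighbourhood of `u`. -/
def c (u v : ℕ) : Prop := (cn u).testBit v = true

theorem c_lt {u v : ℕ} (h : c u v) : v < 17 := by
  unfold c cn at h
  rw [tb_land, tb_all] at h
  simp at h
  exact h.2

theorem tb_nbL (S : List ℕ) (i : ℕ) : (nbL S).testBit i = true ↔ ∃ x ∈ S, c x i := by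
  induction S with
  | nil => simp [nbL]
  | cons x l ih => simp [nbL, ih, c]

theorem tb_maskL (S : List ℕ) (i : ℕ) : (maskL S).testBit i = true ↔ i ∈ S := by
  induction S with
  | nil => simp [maskL]
  | cons x l ih =>
    rw [maskL, tb_lor, Bool.or_eq_true, ih, tb_bit, List.mem_cons, decide_eq_true_iff]
    exact or_congr_left eq_comm

theorem tb_pnOf (S : List ℕ) (x b : ℕ) :
    (pnOf S x).testBit b = true ↔ c x b ∧ ∀ y ∈ S, y ≠ x → ¬ c y b := by
  unfold pnOf
  rw [tb_land, tb_xor, tb_all, Bool.and_eq_true]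
  refine and_congr_right fun hx => ?_
  have hb : b < 17 := c_lt hx
  have key : (nbL (S.filter fun y => !(Nat.beq y x))).testBit b = true ↔
      ∃ y ∈ S, y ≠ x ∧ c y b := by
    rw [tb_nbL]
    constructor
    · rintro ⟨y, hy, hc⟩
      rw [List.mem_filter] at hy
      refine ⟨y, hy.1, fun e => ?_, hc⟩
      have := hy.2
      rw [beq_true.2 e] at this
      simp at this
    · rintro ⟨y, hy, hne, hc⟩
      refine ⟨y, List.mem_filter.2 ⟨hy, ?_⟩, hc⟩
      cases hq : Nat.beq y x
      · rfl
      · exact absurd (beq_true.1 hq) hne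
  constructor
  · intro h y hy hne hc
    rw [key.2 ⟨y, hy, hne, hc⟩] at h
    simp [hb] at h
  · intro h
    cases hq : (nbL (S.filter fun y => !(Nat.beq y x))).testBit b
    · simp [hb]
    · obtain ⟨y, hy, hne, hc⟩ := key.1 hq
      exact absurd hc (h y hy hne)

def Irr (W : ℕ → Prop) (S : List ℕ) : Prop :=
  ∀ x ∈ S, ∃ b, W b ∧ c x b ∧ ∀ y ∈ S, y ≠ x → ¬ c y b

def Goal (W : ℕ → Prop) (k : ℕ) : Prop :=
  ∃ D : Finset ℕ, D.card ≤ k ∧ (∀ d ∈ D, W d) ∧ ∀ v, W v → ∃ d ∈ D, c d v

theorem noAnn_spec {q I O : ℕ} {l : List ℕ} (h : noAnn q I O l = true) :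
    ∀ p ∈ l, sub (Nat.land p I) q = true → sub (Nat.land p q) O = true := by
  induction l with
  | nil => simp
  | cons p l ih =>
    unfold noAnn at h
    intro p' hp' hs
    cases h1 : sub (Nat.land p I) q
    · rw [h1, cond_false] at h
      rcases List.mem_cons.1 hp' with rfl | hp'
      · rw [h1] at hs; exact absurd hs (by simp)
      · exact ih h p' hp' hs
    · rw [h1, cond_true] at h
      cases h2 : sub (Nat.land p q) O
      · rw [h2, cond_false] at h; exact absurd h (by simp)
      · rw [h2, cond_true] at h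
        rcases List.mem_cons.1 hp' with rfl | hp'
        · exact h2
        · exact ih h p' hp' hs

theorem tb_rest {t i : ℕ} (ht : t ≠ 0) :
    (Nat.xor t (bit (Nat.log2 t))).testBit i = true ↔ t.testBit i = true ∧ i ≠ Nat.log2 t := by
  rw [tb_xor, tb_bit]
  by_cases h : Nat.log2 t = i
  · subst h; simp [tb_log2 ht]
  · simp [h, Ne.symm h]

theorem bad_spec {NS I O : ℕ} {PN : List ℕ} : ∀ {f t : ℕ}, bad NS PN I O f t = true →
    ∃ v, t.testBit v = true ∧ sub (Nat.land (cn v) I) NS = false ∧
      noAnn (cn v) I O PN = true := by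
  intro f
  induction f with
  | zero => intro t h; simp [bad] at h
  | succ f ih =>
    intro t h
    unfold bad at h
    cases h0 : Nat.beq t 0
    · rw [h0, cond_false] at h
      have ht : t ≠ 0 := fun e => by rw [beq_true.2 e] at h0; simp at h0
      cases h1 : sub (Nat.land (cn (Nat.log2 t)) I) NS
      · cases h2 : noAnn (cn (Nat.log2 t)) I O PN
        · rw [h1, h2] at h
          obtain ⟨v, hv, hr⟩ := ih h
          exact ⟨v, ((tb_rest ht).1 hv).1, hr⟩
        · exact ⟨_, tb_log2 ht, h1, h2⟩
      · rw [h1] at h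
        obtain ⟨v, hv, hr⟩ := ih h
        exact ⟨v, ((tb_rest ht).1 hv).1, hr⟩
    · rw [h0, cond_true] at h; exact absurd h (by simp)

theorem firstEmpty_spec {I p : ℕ} {l : List ℕ} (h : firstEmpty I l = some p) :
    p ∈ l ∧ Nat.land p I = 0 := by
  induction l with
  | nil => simp [firstEmpty] at h
  | cons q l ih =>
    unfold firstEmpty at h
    cases h0 : Nat.beq (Nat.land q I) 0
    · rw [h0, cond_false] at h
      exact ⟨List.mem_cons_of_mem _ (ih h).1, (ih h).2⟩
    · rw [h0, cond_true] at h
      obtain rfl : q = p := by simpa using h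
      exact ⟨List.mem_cons_self, beq_true.1 h0⟩

theorem nbK_spec : ∀ {k D m : ℕ}, nbK k D = some m →
    ∃ F : Finset ℕ, F.card ≤ k ∧ (∀ d ∈ F, D.testBit d = true) ∧
      ∀ v, m.testBit v = true → ∃ d ∈ F, c d v := by
  intro k
  induction k with
  | zero =>
    intro D m h
    unfold nbK at h
    cases h0 : Nat.beq D 0
    · rw [h0] at h; simp at h
    · rw [h0] at h
      obtain rfl : 0 = m := by simpa using h
      exact ⟨∅, by simp, by simp, by simp⟩
  | succ k ih =>
    intro D m h
    unfold nbK at h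
    cases h0 : Nat.beq D 0
    · rw [h0, cond_false] at h
      have ht : D ≠ 0 := fun e => by rw [beq_true.2 e] at h0; simp at h0
      cases h1 : nbK k (Nat.xor D (bit (Nat.log2 D))) with
      | none => rw [h1] at h; simp at h
      | some m' =>
        rw [h1] at h
        obtain rfl : Nat.lor (cn (Nat.log2 D)) m' = m := by simpa using h
        obtain ⟨F, hF, hD, hm⟩ := ih h1
        refine ⟨insert (Nat.log2 D) F, (Finset.card_insert_le _ _).trans (by omega), ?_, ?_⟩
        · intro d hd
          rcases Finset.mem_insert.1 hd with rfl | hd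
          · exact tb_log2 ht
          · exact ((tb_rest ht).1 (hD d hd)).1
        · intro v hv
          rw [tb_lor, Bool.or_eq_true] at hv
          rcases hv with hv | hv
          · exact ⟨_, Finset.mem_insert_self _ _, hv⟩
          · obtain ⟨d, hd, hc⟩ := hm v hv
            exact ⟨d, Finset.mem_insert_of_mem hd, hc⟩
    · rw [h0] at h
      obtain rfl : 0 = m := by simpa using h
      exact ⟨∅, by simp, by simp, by simp⟩

theorem not_bad {W : ℕ → Prop} {S : List ℕ} (hI : Irr W S)
    (hM : ∀ v, W v → v ∉ S → ¬ Irr W (v :: S)) {I O : ℕ}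
    (hIW : ∀ i, I.testBit i = true → W i) (hO : ∀ i, O.testBit i = true → ¬ W i)
    (hS : ∀ i, i ∈ S → I.testBit i = true) {f : ℕ} :
    bad (nbL S) (S.map (pnOf S)) I O f (Nat.xor I (maskL S)) = false := by
  by_contra hb
  rw [Bool.not_eq_false] at hb
  obtain ⟨v, hv, h1, h2⟩ := bad_spec hb
  rw [tb_xor] at hv
  have hvS : v ∉ S := fun h => by
    rw [hS v h, (tb_maskL S v).2 h] at hv; simp at hv
  have hvI : I.testBit v = true := by
    have : (maskL S).testBit v = false := by
      cases hq : (maskL S).testBit v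
      · rfl
      · exact absurd ((tb_maskL S v).1 hq) hvS
    rw [this] at hv; simpa using hv
  refine hM v (hIW v hvI) hvS ?_
  intro x hx
  rcases List.mem_cons.1 hx with rfl | hxS
  · have : ¬ ∀ i, (Nat.land (cn x) I).testBit i = true → (nbL S).testBit i = true := by
      rw [← sub_iff, h1]; simp
    push Not at this
    obtain ⟨u, hu, hu'⟩ := this
    rw [tb_land, Bool.and_eq_true] at hu
    refine ⟨u, hIW u hu.2, hu.1, fun y hy hne hc => ?_⟩
    rcases List.mem_cons.1 hy with rfl | hy
    · exact hne rfl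
    · exact hu' ((tb_nbL S u).2 ⟨y, hy, hc⟩)
  · have h3 := noAnn_spec h2 (pnOf S x) (List.mem_map_of_mem hxS)
    have : ∃ b, W b ∧ (pnOf S x).testBit b = true ∧ ¬ c v b := by
      cases hq : sub (Nat.land (pnOf S x) I) (cn v)
      · have : ¬ ∀ i, (Nat.land (pnOf S x) I).testBit i = true → (cn v).testBit i = true := by
          rw [← sub_iff, hq]; simp
        push Not at this
        obtain ⟨b, hb, hb'⟩ := this
        rw [tb_land, Bool.and_eq_true] at hb
        exact ⟨b, hIW b hb.2, hb.1, hb'⟩
      · obtain ⟨b, hbW, hb⟩ := hI x hxS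
        have hp := (tb_pnOf S x b).2 hb
        refine ⟨b, hbW, hp, fun hc => hO b ?_ hbW⟩
        refine sub_iff.1 (h3 hq) b ?_
        rw [tb_land, hp]; exact hc
    obtain ⟨b, hbW, hp, hvb⟩ := this
    rw [tb_pnOf] at hp
    refine ⟨b, hbW, hp.1, fun y hy hne hc => ?_⟩
    rcases List.mem_cons.1 hy with rfl | hy
    · exact hvb hc
    · exact hp.2 y hy hne hc

theorem nextBr_spec {W : ℕ → Prop} {S : List ℕ} (hW : ∀ v, W v → v < 17) (hI : Irr W S)
    {k I O q : ℕ} {r : ℕ × ℕ}
    (hIW : ∀ i, I.testBit i = true → W i) (hO : ∀ i, O.testBit i = true → ¬ W i)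
    (h : nextBr k (S.map (pnOf S)) I O q = some r) :
    Goal W k ∨ ∃ v, r.1.testBit v = true ∧ W v := by
  have hO' : ∀ i, W i → O.testBit i = false := fun i hi => by
    cases hq : O.testBit i
    · rfl
    · exact absurd hi (hO i hq)
  unfold nextBr at h
  cases h0 : firstEmpty I (S.map (pnOf S)) with
  | some p =>
    rw [h0] at h
    obtain rfl : (Nat.land p (Nat.xor 131071 O), q) = r := by simpa using h
    obtain ⟨x, hx, rfl⟩ := List.mem_map.1 (firstEmpty_spec h0).1
    obtain ⟨b, hbW, hb⟩ := hI x hx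
    refine Or.inr ⟨b, ?_, hbW⟩
    show (Nat.land _ _).testBit b = true
    rw [tb_land, (tb_pnOf S x b).2 hb, tb_xor, tb_all, hO' b hbW]
    simp [hW b hbW]
  | none =>
    rw [h0] at h
    cases h1 : sub (Nat.land q 131071) I
    · rw [h1] at h; simp at h
    · rw [h1] at h
      cases h2 : nbK k (Nat.land q 131071) with
      | none => rw [h2] at h; simp at h
      | some m =>
        rw [h2] at h
        obtain rfl : (Nat.xor 131071 (Nat.lor m O), Nat.shiftRight q 17) = r := by simpa using h
        obtain ⟨F, hF, hD, hm⟩ := nbK_spec h2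
        by_cases hall : ∀ v, W v → m.testBit v = true
        · exact Or.inl ⟨F, hF, fun d hd => hIW d (sub_iff.1 h1 d (hD d hd)),
            fun v hv => hm v (hall v hv)⟩
        · push Not at hall
          obtain ⟨v, hv, hv'⟩ := hall
          refine Or.inr ⟨v, ?_, hv⟩
          show (Nat.xor _ _).testBit v = true
          rw [tb_xor, tb_all, tb_lor, hO' v hv]
          simp [hW v hv, hv']

theorem go_spec {W : ℕ → Prop} {S : List ℕ} (hW : ∀ v, W v → v < 17) (hI : Irr W S)
    (hM : ∀ v, W v → v ∉ S → ¬ Irr W (v :: S)) {k : ℕ} :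
    ∀ {f I O t q q' : ℕ}, (∀ i, I.testBit i = true → W i) → (∀ i, O.testBit i = true → ¬ W i) →
      (∀ i, i ∈ S → I.testBit i = true) →
      go k (maskL S) (nbL S) (S.map (pnOf S)) f I O t q = some q' →
      (∃ v, t.testBit v = true ∧ W v) → Goal W k := by
  intro f
  induction f with
  | zero => intro I O t q q' _ _ _ h; simp [go] at h
  | succ f ih =>
    intro I O t q q' hIW hO hS h ⟨v, hv, hvW⟩
    have ht : t ≠ 0 := fun e => by rw [e] at hv; simp at hv
    have h0 : Nat.beq t 0 = false := by
      cases hq : Nat.beq t 0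
      · rfl
      · exact absurd (beq_true.1 hq) ht
    unfold go at h
    rw [h0, cond_false] at h
    by_cases hu : W (Nat.log2 t)
    · have hIW' : ∀ i, (Nat.lor I (bit (Nat.log2 t))).testBit i = true → W i := by
        intro i hi
        rw [tb_lor, tb_bit, Bool.or_eq_true, decide_eq_true_iff] at hi
        rcases hi with hi | rfl
        · exact hIW i hi
        · exact hu
      have hS' : ∀ i, i ∈ S → (Nat.lor I (bit (Nat.log2 t))).testBit i = true := by
        intro i hi
        rw [tb_lor, hS i hi]; simp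
      rw [not_bad hI hM hIW' hO hS', cond_false] at h
      cases h1 : nextBr k (S.map (pnOf S)) (Nat.lor I (bit (Nat.log2 t))) O q with
      | none => rw [h1] at h; simp at h
      | some r =>
        rw [h1] at h
        rcases nextBr_spec hW hI hIW' hO h1 with hg | hex
        · exact hg
        · cases h2 : go k (maskL S) (nbL S) (S.map (pnOf S)) f
            (Nat.lor I (bit (Nat.log2 t))) O r.1 r.2 with
          | none => simp only [h2] at h; simp at h
          | some q'' => exact ih hIW' hO hS' h2 hex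
    · have hO' : ∀ i, (Nat.lor O (bit (Nat.log2 t))).testBit i = true → ¬ W i := by
        intro i hi
        rw [tb_lor, tb_bit, Bool.or_eq_true, decide_eq_true_iff] at hi
        rcases hi with hi | rfl
        · exact hO i hi
        · exact hu
      have hv' : (Nat.xor t (bit (Nat.log2 t))).testBit v = true :=
        (tb_rest ht).2 ⟨hv, fun e => hu (e ▸ hvW)⟩
      split at h
      · simp at h
      · exact ih hIW hO' hS h ⟨v, hv', hvW⟩

theorem chkS_spec {W : ℕ → Prop} {S : List ℕ} (hW : ∀ v, W v → v < 17) (hSW : ∀ v ∈ S, W v)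
    (hI : Irr W S) (hM : ∀ v, W v → v ∉ S → ¬ Irr W (v :: S)) {q : ℕ}
    (h : (chkS S q).isSome = true) : Goal W S.length := by
  unfold chkS at h
  cases h0 : firstEmpty 131071 (S.map (pnOf S)) with
  | some p =>
    obtain ⟨h1, h2⟩ := firstEmpty_spec h0
    obtain ⟨x, hx, rfl⟩ := List.mem_map.1 h1
    obtain ⟨b, hbW, hb⟩ := hI x hx
    have := congrArg (fun z => Nat.testBit z b) h2
    simp only [tb_land, (tb_pnOf S x b).2 hb, tb_all] at this
    simp [hW b hbW] at this
  | none =>
    rw [h0] at h
    obtain ⟨q', hq'⟩ := Option.isSome_iff_exists.1 h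
    by_cases hall : ∀ v, W v → (nbL S).testBit v = true
    · refine ⟨S.toFinset, S.toFinset_card_le, fun d hd => hSW d (List.mem_toFinset.1 hd), ?_⟩
      intro v hv
      obtain ⟨x, hx, hc⟩ := (tb_nbL S v).1 (hall v hv)
      exact ⟨x, List.mem_toFinset.2 hx, hc⟩
    · push Not at hall
      obtain ⟨v, hv, hv'⟩ := hall
      refine go_spec hW hI hM (fun i hi => hSW i ((tb_maskL S i).1 hi)) (by simp)
        (fun i hi => (tb_maskL S i).2 hi) hq' ⟨v, ?_, hv⟩
      rw [tb_xor, tb_all]
      simp [hW v hv, hv']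

end Pool.Agent.P.MP_fef8d9_co
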